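import Pool.Agent.W123.RU.PolyV
import Pool.Agent.W123.GS.Fin

set_option autoImplicit false

/-!
# Almost prime values of polynomials: constant density at all but boundedly many scales

Let `f₁, …, f_k` be distinct irreducible integer polynomials with positive leading coefficients whose
product has no fixed prime divisor (for instance `k = 1` and `X² + 1`). Consider the integers `m` for
which every `f_i(m)` has at most `r` prime factors, all larger than `x ^ (1 / r)`. At all but boundedly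
many dyadic scales `D` with `log ^ k x ≤ D ≤ x` they have a constant density `λ / log ^ k x` on
`[n - D, n + D]`, up to `δ / log ^ k x`, for all subintervals simultaneously: this holds for almost all
`n` in `(x, 2 x]` with some `λ ≥ 0`, and for a positive proportion with `c₁ ≤ λ ≤ c₂`.
-/

namespace Pool.Agent.Results.MP_f1a94e_nt.AllButFewScales

open Polynomial Finset Filter

/-- every value `f i (m)` has at most `r` prime factors (with multiplicity), all of them larger than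
`z`. -/
def AlmostPrimeValues {ι : Type} (f : ι → ℤ[X]) (r : ℕ) (z : ℝ) (m : ℕ) : Prop :=
  ∀ i, ((f i).eval (m : ℤ)).natAbs.primeFactorsList.length ≤ r ∧
    ∀ p : ℕ, p.Prime → (p : ℤ) ∣ (f i).eval (m : ℤ) → z < (p : ℝ)

open Classical in
/-- up to `δ / log ^ k x` the `m` of the problem have a constant density `lam / log ^ k x` with
`c₁ ≤ lam ≤ c₂` on `[n - D, n + D]`, where `k` is the number of polynomials -/
def ConstantDensity {ι : Type} [Fintype ι] (f : ι → ℤ[X]) (r : ℕ) (c₁ c₂ δ : ℝ) (x n D : ℕ) : Prop :=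
  ∃ lam : ℝ, c₁ ≤ lam ∧ lam ≤ c₂ ∧ ∀ u v : ℕ, n ≤ u + D → u ≤ v → v ≤ n + D →
    |(((Finset.Ioc u v).filter
        (fun m => AlmostPrimeValues f r ((x : ℝ) ^ (1 / (r : ℝ))) m)).card : ℝ) -
      lam * ((v : ℝ) - u) / Real.log x ^ Fintype.card ι| ≤ δ * D / Real.log x ^ Fintype.card ι

open Classical in
/-- the number of `j` with `log ^ k x ≤ 2 ^ j ≤ x` for which there is no constant density on
`[n - 2 ^ j, n + 2 ^ j]` -/
noncomputable def badScales {ι : Type} [Fintype ι] (f : ι → ℤ[X]) (r : ℕ) (c₁ c₂ δ : ℝ) (x n : ℕ) :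
    ℕ :=
  ((Finset.range (Nat.log 2 x + 1)).filter (fun j => Real.log x ^ Fintype.card ι ≤ (2 : ℝ) ^ j ∧
    ¬ ConstantDensity f r c₁ c₂ δ x n (2 ^ j))).card

open Pool.Agent.W123.RP Pool.Agent.H373R2.T7 Pool.Agent.W123.RU Pool.Agent.W123.RU.Poly
  Pool.Agent.W123.GS

open Classical in
lemma bad_le {ι : Type} [Fintype ι] (f : ι → ℤ[X]) (r : ℕ) (c₁ c₂ δ : ℝ) (x n : ℕ) (P : ℕ → Prop)
    (L : ℝ) (hL : L = Real.log x ^ Fintype.card ι)
    (hP : ∀ m, P m ↔ AlmostPrimeValues f r ((x : ℝ) ^ (1 / (r : ℝ))) m) :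
    badScales f r c₁ c₂ δ x n ≤ ((range (Nat.log 2 x + 1)).filter
      (fun j => L ≤ (2 : ℝ) ^ j ∧ ¬ Good P c₁ c₂ δ L n j)).card := by
  unfold badScales
  apply card_le_card
  intro j hj
  rw [mem_filter] at hj ⊢
  refine ⟨hj.1, ?_, ?_⟩
  · rw [hL]; exact hj.2.1
  · intro hg
    apply hj.2.2
    obtain ⟨lam, h1, h2, h3⟩ := hg
    refine ⟨lam, h1, h2, ?_⟩
    intro u v hu huv hv
    have h4 := h3 u v hu huv hv
    have hco : co P u v = ((Finset.Ioc u v).filter
        (fun m => AlmostPrimeValues f r ((x : ℝ) ^ (1 / (r : ℝ))) m)).card := by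
      unfold co
      congr 1
      ext m
      rw [mem_filter, mem_filter, hP]
    rw [hco, hL] at h4
    push_cast
    exact h4

open Classical in
/-- **All but boundedly many scales.** -/
theorem result {ι : Type} [Fintype ι] [Nonempty ι] (f : ι → ℤ[X])
    (hirr : ∀ i, Irreducible (f i)) (hdeg : ∀ i, 0 < (f i).natDegree)
    (hlead : ∀ i, 0 < (f i).leadingCoeff) (hinj : Function.Injective f)
    (hadm : ∀ p : ℕ, p.Prime → ∃ m : ℕ, ∀ i, ¬ (p : ℤ) ∣ (f i).eval (m : ℤ)) :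
    ∃ (r : ℕ) (c₁ c₂ κ : ℝ), 0 < c₁ ∧ 0 < c₂ ∧ 0 < κ ∧ ∀ δ η : ℝ, 0 < δ → 0 < η →
    ∃ (K : ℕ) (Λ : ℝ), ∀ᶠ x : ℕ in atTop,
      κ * x ≤ (((Finset.Ioc x (2 * x)).filter (fun n => badScales f r c₁ c₂ δ x n ≤ K)).card : ℝ) ∧
      (((Finset.Ioc x (2 * x)).filter (fun n => K < badScales f r 0 Λ δ x n)).card : ℝ) ≤ η * x := by
  have hf : Sys f := ⟨hirr, hdeg, hlead, hinj, hadm⟩
  obtain ⟨k, hk⟩ : ∃ k, k = Fintype.card ι := ⟨_, rfl⟩
  have hk1 : 1 ≤ k := by rw [hk]; exact Fintype.card_pos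
  obtain ⟨c, hc, hQ⟩ := exists_c f hf
  obtain ⟨D', e, hlarge⟩ := exists_large f hf
  obtain ⟨v, Cv, hv, hCv, hV⟩ := V_bounds f hf
  rw [← hk] at hV
  obtain ⟨K1, hK1, hmain⟩ := sieve_scales c (2 * c) (c ^ 2) D' e hc
  obtain ⟨K2, hK2, hlow⟩ := rough_lower c hc
  choose Ki Di hKD using fun i => eval_bound (f i)
  obtain ⟨A, hA⟩ : ∃ A : ℕ, A = 1 + ∑ i, Ki i := ⟨_, rfl⟩
  obtain ⟨d, hd⟩ : ∃ d : ℕ, d = ∑ i, Di i := ⟨_, rfl⟩
  obtain ⟨r, hr⟩ : ∃ r : ℕ, r = max K1 K2 := ⟨_, rfl⟩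
  have hr1 : K1 ≤ r := by rw [hr]; exact le_max_left _ _
  have hr2 : K2 ≤ r := by rw [hr]; exact le_max_right _ _
  have hr0 : 2 ≤ r := hK1.trans hr1
  have hrr : (2 : ℝ) ≤ r := by exact_mod_cast hr0
  have hrpos : (0 : ℝ) < r := by linarith
  obtain ⟨R, hR⟩ : ∃ R : ℕ, R = (d + 2) * r := ⟨_, rfl⟩
  have hRr : (R : ℝ) = (d + 2) * r := by rw [hR]; push_cast; ring
  have hR2r : 2 * r ≤ R := by rw [hR]; nlinarith
  have hR0 : 2 ≤ R := by omega
  have hR2r' : 2 * (r : ℝ) ≤ R := by exact_mod_cast hR2r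
  have hRpos : (0 : ℝ) < R := by linarith
  set C3 : ℝ := Cv * (2 * R) ^ k with hC3
  have hC30 : 0 < C3 := by positivity
  obtain ⟨c₁, c₂, κ, hc₁, hc₂, hκ, hmain⟩ := hmain R (by omega) (v / 2) C3 (by positivity) hC30
  refine ⟨R, c₁, c₂, κ, hc₁, hc₂, hκ, ?_⟩
  intro δ η hδ hη
  obtain ⟨K, lam, L0, hlam, hreg⟩ := hmain δ η hδ hη
  refine ⟨K, lam, ?_⟩
  have hXr : Tendsto (fun X : ℕ => (X : ℝ)) atTop atTop := tendsto_natCast_atTop_atTop
  have hpow : Tendsto (fun X : ℕ => (X : ℝ) ^ (1 / (2 * R : ℝ))) atTop atTop :=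
    (tendsto_rpow_atTop (by positivity)).comp hXr
  have hlogX : Tendsto (fun X : ℕ => Real.log (X : ℝ)) atTop atTop :=
    Real.tendsto_log_atTop.comp hXr
  have key : ∀ᶠ X : ℕ in atTop,
      κ * X ≤ (((Finset.Ioc X (2 * X)).filter (fun n => badScales f R c₁ c₂ δ X n ≤ K)).card : ℝ) ∧
      (((Finset.Ioc X (2 * X)).filter (fun n => K < badScales f R 0 lam δ X n)).card : ℝ) ≤ η * X := by
    filter_upwards [hreg, hlow r hr2 (k + 1), eventually_ge_atTop (max 16 (A * 5 ^ d)),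
      hpow.eventually_ge_atTop 3, hlogX.eventually_ge_atTop (2 + |L0| + 1 / v),
      logpow_le (8 * k) 1 (by norm_num)] with X hreg hlow hX16' hX2 hXlog hlp
    have hX16 : 16 ≤ X := (le_max_left _ _).trans hX16'
    have hXA : A * 5 ^ d ≤ X := (le_max_right _ _).trans hX16'
    have hX16r : (16 : ℝ) ≤ X := by exact_mod_cast hX16
    have hXpos : (0 : ℝ) < X := by linarith
    have hX1 : (1 : ℝ) ≤ X := by linarith
    have hL0a : 0 ≤ |L0| := abs_nonneg _
    have hv1 : 0 < 1 / v := by positivity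
    have hlX2 : 2 ≤ Real.log X := by linarith
    have hlX : 0 < Real.log X := by linarith
    have hlX1 : 1 ≤ Real.log X := by linarith
    set L : ℝ := Real.log X ^ k with hL
    have hlL : Real.log X ≤ L := by
      calc Real.log X = Real.log X ^ 1 := (pow_one _).symm
        _ ≤ Real.log X ^ k := pow_le_pow_right₀ hlX1 hk1
    have hLpos : 0 < L := by linarith
    have hL8 : L ^ 8 ≤ X := by
      rw [hL, ← pow_mul, mul_comm k 8]
      linarith
    obtain ⟨hy1, hy2, hy3, hy4⟩ := level_low R hR0 X (by omega) (by linarith)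
    have hmono : (X : ℝ) ^ (1 / (2 * R : ℝ)) ≤ (X : ℝ) ^ (1 / (2 * r : ℝ)) := by
      apply Real.rpow_le_rpow_of_exponent_le hX1
      apply one_div_le_one_div_of_le (by positivity)
      linarith
    obtain ⟨hz1, hz2, hz3, hz4⟩ := level_low r hr0 X (by omega) (by linarith)
    have hy5 : 3 ≤ ⌊(X : ℝ) ^ (1 / (R : ℝ))⌋₊ := by
      have : (3 : ℝ) ≤ ⌊(X : ℝ) ^ (1 / (R : ℝ))⌋₊ := hX2.trans hy1
      exact_mod_cast this
    have hz5 : 3 ≤ ⌊(X : ℝ) ^ (1 / (r : ℝ))⌋₊ := by
      have : (3 : ℝ) ≤ ⌊(X : ℝ) ^ (1 / (r : ℝ))⌋₊ := hX2.trans (hmono.trans hz1)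
      exact_mod_cast this
    have hylog : 0 < Real.log ⌊(X : ℝ) ^ (1 / (R : ℝ))⌋₊ := lt_of_lt_of_le (by positivity) hy2
    have hzlog : 0 < Real.log ⌊(X : ℝ) ^ (1 / (r : ℝ))⌋₊ := lt_of_lt_of_le (by positivity) hz2
    have h2X : ((2 * X : ℕ) : ℝ) ^ (1 / (R : ℝ)) ≤ (X : ℝ) ^ (1 / (r : ℝ)) := by
      calc ((2 * X : ℕ) : ℝ) ^ (1 / (R : ℝ)) ≤ ((X : ℝ) ^ (2 : ℝ)) ^ (1 / (R : ℝ)) := by
            apply Real.rpow_le_rpow (by positivity) _ (by positivity)
            push_cast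
            rw [Real.rpow_two]
            nlinarith
        _ = (X : ℝ) ^ (2 * (1 / (R : ℝ))) := by rw [← Real.rpow_mul hXpos.le]
        _ ≤ (X : ℝ) ^ (1 / (r : ℝ)) := by
          apply Real.rpow_le_rpow_of_exponent_le hX1
          rw [mul_one_div, div_le_div_iff₀ hRpos hrpos]
          linarith
    -- upper bound of the sieve product
    have hVy : Vq (Q f) ⌊(X : ℝ) ^ (1 / (R : ℝ))⌋₊ ≤ C3 / L := by
      refine (hV _ hy5).2.trans ?_
      have h1 : (Real.log X / (2 * R)) ^ k ≤ Real.log ⌊(X : ℝ) ^ (1 / (R : ℝ))⌋₊ ^ k :=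
        pow_le_pow_left₀ (by positivity) hy2 k
      calc Cv / Real.log ⌊(X : ℝ) ^ (1 / (R : ℝ))⌋₊ ^ k ≤ Cv / (Real.log X / (2 * R)) ^ k := by gcongr
        _ = C3 / L := by rw [hC3, hL, div_pow]; field_simp
    -- lower bound
    have hVz : v / L ≤ Vq (Q f) ⌊(X : ℝ) ^ (1 / (r : ℝ))⌋₊ := by
      refine le_trans ?_ (hV _ hz5).1
      rw [hL]
      gcongr
    obtain ⟨E0, hE0, hlarge'⟩ := hlarge ⌊L⌋₊
    -- the set
    obtain ⟨P, hP⟩ : ∃ P : ℕ → Prop, ∀ m, P m ↔ AlmostPrimeValues f R ((X : ℝ) ^ (1 / (R : ℝ))) m :=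
      ⟨_, fun m => Iff.rfl⟩
    have hPQ : ∀ m, P m → m ≤ 4 * X → ⌊(X : ℝ) ^ (1 / (R : ℝ))⌋₊ < m →
        ∀ p ∈ pz ⌊(X : ℝ) ^ (1 / (R : ℝ))⌋₊, ¬ Q f p m := by
      rintro m hPm _ _ p hp ⟨i, hi⟩
      have h5 := (((hP m).1 hPm) i).2 p (mem_pz.1 hp).2 hi
      have h6 := mem_pz' (by positivity) hp
      linarith
    have hXX : (X : ℝ) ^ (1 / (R : ℝ)) ≤ (X : ℝ) ^ (1 / (r : ℝ)) := by
      apply Real.rpow_le_rpow_of_exponent_le hX1
      apply one_div_le_one_div_of_le hrpos
      linarith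
    have hcnt : v / 2 * X / L ≤ (co P X (2 * X) : ℝ) := by
      have h1 := hlow (Q f) hQ (by
        refine le_trans ?_ hVz
        rw [div_le_div_iff₀ (by positivity) hLpos, one_mul, pow_succ]
        have h2 : 1 ≤ v * Real.log X := by
          have : 1 / v ≤ Real.log X := by linarith
          rw [div_le_iff₀ hv] at this
          linarith
        calc L = L * 1 := (mul_one L).symm
          _ ≤ L * (v * Real.log X) := by gcongr
          _ = _ := by rw [hL]; ring)
      have h2 : (((Finset.Ioc X (2 * X)).filter (fun n =>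
          ∀ p ∈ pz ⌊(X : ℝ) ^ (1 / (r : ℝ))⌋₊, ¬ Q f p n)).card : ℝ) ≤ (co P X (2 * X) : ℝ) := by
        have : ((Finset.Ioc X (2 * X)).filter (fun n =>
          ∀ p ∈ pz ⌊(X : ℝ) ^ (1 / (r : ℝ))⌋₊, ¬ Q f p n)).card ≤ co P X (2 * X) := by
          unfold co
          apply card_le_card
          intro m hm
          rw [mem_filter, mem_Ioc] at hm
          rw [mem_filter, mem_Ioc, hP]
          obtain ⟨hm1, hm3⟩ := hm
          refine ⟨hm1, ?_⟩
          intro i
          have hrough : ∀ p : ℕ, p.Prime → (p : ℤ) ∣ (f i).eval (m : ℤ) →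
              (X : ℝ) ^ (1 / (r : ℝ)) < p := by
            intro p hp hd
            exact not_mem_pz hp (fun h => hm3 p h ⟨i, hd⟩)
          have hz0 : 2 ≤ (X : ℝ) ^ (1 / (r : ℝ)) := by
            have h6 : ((⌊(X : ℝ) ^ (1 / (r : ℝ))⌋₊ : ℕ) : ℝ) ≤ (X : ℝ) ^ (1 / (r : ℝ)) :=
              Nat.floor_le (by positivity)
            have h7 : (2 : ℝ) ≤ ((⌊(X : ℝ) ^ (1 / (r : ℝ))⌋₊ : ℕ) : ℝ) := by exact_mod_cast hz4
            linarith
          have hne : (f i).eval (m : ℤ) ≠ 0 := by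
            intro h0
            have := hrough 2 Nat.prime_two (by rw [h0]; exact dvd_zero _)
            push_cast at this
            linarith
          refine ⟨?_, fun p hp hd => lt_of_le_of_lt hXX (hrough p hp hd)⟩
          apply length_le _ R (Int.natAbs_ne_zero.2 hne) ((X : ℝ) ^ (1 / (r : ℝ)))
          · intro p hp hd
            exact hrough p hp (Int.natCast_dvd.2 hd)
          · have h8 := hKD i (m : ℤ)
            have e1 : ((((f i).eval (m : ℤ)).natAbs : ℕ) : ℝ) =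
                |(((f i).eval (m : ℤ) : ℤ) : ℝ)| := by
              rw [Nat.cast_natAbs, Int.cast_abs]
            have e2 : |((m : ℤ) : ℝ)| = (m : ℝ) := by
              rw [Int.cast_natCast, abs_of_nonneg (Nat.cast_nonneg m)]
            rw [e1]
            rw [e2] at h8
            have hm5 : (1 : ℝ) + m ≤ 5 * X := by
              have h9 : m ≤ 4 * X := by omega
              have h10 : (m : ℝ) ≤ 4 * X := by exact_mod_cast h9
              linarith
            have hm6 : (1 : ℝ) ≤ 1 + m := by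
              have : (0 : ℝ) ≤ m := Nat.cast_nonneg m
              linarith
            have hKA : (Ki i : ℝ) ≤ A := by
              have h9 : Ki i ≤ ∑ i, Ki i :=
                Finset.single_le_sum (f := Ki) (fun _ _ => Nat.zero_le _) (mem_univ i)
              have h10 : Ki i ≤ A := by omega
              exact_mod_cast h10
            have hDd : Di i ≤ d := by
              rw [hd]
              exact Finset.single_le_sum (f := Di) (fun _ _ => Nat.zero_le _) (mem_univ i)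
            have hXA' : (A : ℝ) * 5 ^ d ≤ X := by exact_mod_cast hXA
            have e3 : ((X : ℝ) ^ (1 / (r : ℝ))) ^ R = (X : ℝ) ^ (d + 2) := by
              rw [← Real.rpow_natCast ((X : ℝ) ^ (1 / (r : ℝ))), ← Real.rpow_mul hXpos.le, hRr,
                ← Real.rpow_natCast]
              congr 1
              push_cast
              field_simp
            rw [pow_succ, e3]
            calc |(((f i).eval (m : ℤ) : ℤ) : ℝ)| ≤ Ki i * (1 + m) ^ Di i := h8
              _ ≤ A * (1 + m) ^ d := by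
                apply mul_le_mul hKA (pow_le_pow_right₀ hm6 hDd) (by positivity) (by positivity)
              _ ≤ A * (5 * X) ^ d := by gcongr
              _ = A * 5 ^ d * (X : ℝ) ^ d := by rw [mul_pow]; ring
              _ ≤ X * (X : ℝ) ^ d := by gcongr
              _ = (X : ℝ) ^ (d + 1) * 1 := by rw [pow_succ]; ring
              _ ≤ (X : ℝ) ^ (d + 2) * (X : ℝ) ^ (1 / (r : ℝ)) := by
                apply mul_le_mul (pow_le_pow_right₀ hX1 (by omega)) _ (by norm_num) (by positivity)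
                linarith
          · linarith
        exact_mod_cast this
      refine le_trans ?_ (h1.trans h2)
      calc v / 2 * X / L = v / L * X / 2 := by ring
        _ ≤ _ := by gcongr
    have hfin := hreg (Q f) (CoG (Q f)) L E0 (sdata f hf c hQ) (by
      have := le_abs_self L0
      linarith) hL8 hVy hE0 (hlarge' _) P P (fun m h => h) hPQ hcnt
    refine conclude P c₁ c₂ δ L lam κ η K X (fun n => badScales f R c₁ c₂ δ X n)
      (fun n => badScales f R 0 lam δ X n) ?_ ?_ hfin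
    · intro n _ _
      exact bad_le f R c₁ c₂ δ X n P L (by rw [hL, hk]) hP
    · intro n _ _
      exact bad_le f R 0 lam δ X n P L (by rw [hL, hk]) hP
  exact key

end Pool.Agent.Results.MP_f1a94e_nt.AllButFewScales
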