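import Mathlib
import Pool.Agent.H505R3.Asym8

set_option autoImplicit false

/-!
# Values `m ^ 2 + 1` with large prime factors and an even number of them in any given set

The theorem is `Pool.Agent.H505R3.main8` of the starting files (never handed in): it combines the
identity `(N ^ 2 + 1) ((2 N ^ 2) ^ 2 + 1) = (2 N ^ 3 + N) ^ 2 + 1` with a lower bound sieve.
-/

namespace Pool.Agent.Results.MP_f1a94e_nt.EvenRoughValues

open Finset

lemma pow_le_prod (t : ℝ) (ht : 0 ≤ t) (l : List ℕ) (h : ∀ p ∈ l, t ≤ (p : ℝ)) :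
    t ^ l.length ≤ ((l.prod : ℕ) : ℝ) := by
  induction l with
  | nil => simp
  | cons p l ih =>
    rw [List.length_cons, List.prod_cons, Nat.cast_mul, pow_succ, mul_comm]
    exact mul_le_mul (h p (List.mem_cons_self ..)) (ih fun q hq => h q (List.mem_cons_of_mem _ hq))
      (by positivity) (Nat.cast_nonneg _)

/-- **Main result.** For all large `X`:

(1) for every property `E` of positive integers such that `E (a b)` holds whenever neither `E a` nor
`E b` holds, at least `X ^ (1/3) / (log X) ^ 139` of the `n ≤ X` are divisible by `8` and such that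
`n ^ 2 + 1` has the property `E`, all its prime factors are larger than `X ^ (1/8000)`, and their
number is at most `16000`;

(2) in particular, for every set `S` of primes, this holds with the property that the number of prime
factors of `n ^ 2 + 1` belonging to `S`, counted with multiplicity, is even. -/
theorem result : ∃ X₀ : ℕ, ∀ X : ℕ, X₀ ≤ X →
    (∀ E : ℕ → Prop, (∀ a b : ℕ, a ≠ 0 → b ≠ 0 → ¬ E a → ¬ E b → E (a * b)) →
      (X : ℝ) ^ ((1 : ℝ) / 3) / Real.log X ^ 139 ≤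
        (({n : ℕ | n ≤ X ∧ 0 < n ∧ 8 ∣ n ∧
          (∀ p : ℕ, p.Prime → p ∣ n ^ 2 + 1 → (X : ℝ) ^ ((1 : ℝ) / 8000) < p) ∧
          (n ^ 2 + 1).primeFactorsList.length ≤ 16000 ∧
          E (n ^ 2 + 1)} : Set ℕ).ncard : ℝ)) ∧
    (∀ S : Set ℕ,
      (X : ℝ) ^ ((1 : ℝ) / 3) / Real.log X ^ 139 ≤
        (({n : ℕ | n ≤ X ∧ 0 < n ∧ 8 ∣ n ∧
          (∀ p : ℕ, p.Prime → p ∣ n ^ 2 + 1 → (X : ℝ) ^ ((1 : ℝ) / 8000) < p) ∧
          (n ^ 2 + 1).primeFactorsList.length ≤ 16000 ∧
          Even ((n ^ 2 + 1).primeFactorsList.countP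
            (fun p => @decide (p ∈ S) (Classical.propDecidable _)))} : Set ℕ).ncard : ℝ)) := by
  classical
  obtain ⟨X₀, h⟩ := Pool.Agent.H505R3.main8
  obtain ⟨X₁, hX₁⟩ := Filter.eventually_atTop.1
    (Pool.Agent.H505R2.ev_ge (show (0 : ℝ) < 1 / 8000 by norm_num) 2)
  have key : ∀ X : ℕ, max X₀ (max X₁ 2) ≤ X → ∀ E : ℕ → Prop,
      (∀ a b : ℕ, a ≠ 0 → b ≠ 0 → ¬ E a → ¬ E b → E (a * b)) →
      (X : ℝ) ^ ((1 : ℝ) / 3) / Real.log X ^ 139 ≤
        (({n : ℕ | n ≤ X ∧ 0 < n ∧ 8 ∣ n ∧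
          (∀ p : ℕ, p.Prime → p ∣ n ^ 2 + 1 → (X : ℝ) ^ ((1 : ℝ) / 8000) < p) ∧
          (n ^ 2 + 1).primeFactorsList.length ≤ 16000 ∧
          E (n ^ 2 + 1)} : Set ℕ).ncard : ℝ) := by
    intro X hX E hE
    have h0 : X₀ ≤ X := le_trans (le_max_left _ _) hX
    have h1 : X₁ ≤ X := le_trans (le_trans (le_max_left _ _) (le_max_right _ _)) hX
    have h2 : 2 ≤ X := le_trans (le_trans (le_max_right _ _) (le_max_right _ _)) hX
    have hX2 : (2 : ℝ) ≤ X := by exact_mod_cast h2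
    have ht : 2 ≤ (X : ℝ) ^ ((1 : ℝ) / 8000) := hX₁ X h1
    set t : ℝ := (X : ℝ) ^ ((1 : ℝ) / 8000) with htd
    have ht16 : t ^ 16000 = (X : ℝ) ^ 2 := by
      rw [htd, ← Real.rpow_natCast, ← Real.rpow_mul (by linarith), ← Real.rpow_natCast]
      congr 1
      norm_num
    refine (h E hE X h0).trans ?_
    rw [Nat.cast_le]
    apply Set.ncard_le_ncard
    · rintro n ⟨a1, a2, a3, a4, a5⟩
      refine ⟨a1, a2, a3, a4, ?_, a5⟩
      by_contra hcon
      push Not at hcon
      have b1 := pow_le_prod t (by linarith) (n ^ 2 + 1).primeFactorsList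
        (fun p hp => (a4 p (Nat.prime_of_mem_primeFactorsList hp)
          (Nat.dvd_of_mem_primeFactorsList hp)).le)
      rw [Nat.prod_primeFactorsList (by positivity)] at b1
      have b2 : t ^ 16001 ≤ t ^ (n ^ 2 + 1).primeFactorsList.length :=
        pow_le_pow_right₀ (by linarith) hcon
      have b3 : t ^ 16001 = (X : ℝ) ^ 2 * t := by rw [pow_succ, ht16]
      have b4 : ((n ^ 2 + 1 : ℕ) : ℝ) ≤ (X : ℝ) ^ 2 + 1 := by
        have : (n : ℝ) ≤ X := by exact_mod_cast a1
        push_cast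
        have : (n : ℝ) ^ 2 ≤ (X : ℝ) ^ 2 := pow_le_pow_left₀ (Nat.cast_nonneg _) this 2
        linarith
      have b5 : (X : ℝ) ^ 2 * t ≤ (X : ℝ) ^ 2 + 1 := by
        rw [← b3]
        exact b2.trans (b1.trans b4)
      nlinarith
    · exact (Set.finite_Iic X).subset fun n hn => hn.1
  refine ⟨max X₀ (max X₁ 2), fun X hX => ⟨key X hX, fun S => ?_⟩⟩
  refine (key X hX (fun m => Even (m.primeFactorsList.countP
    (fun p => @decide (p ∈ S) (Classical.propDecidable _)))) ?_)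
  intro a b ha hb h1 h2
  rw [(Nat.perm_primeFactorsList_mul ha hb).countP_eq, List.countP_append]
  rw [Nat.not_even_iff_odd] at h1 h2
  exact h1.add_odd h2

end Pool.Agent.Results.MP_f1a94e_nt.EvenRoughValues
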