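import Mathlib
import Pool.Agent.W251.GX.AllG

/-!
Completely multiplicative functions on the Gaussian integers along the line `n + i`.

Method: the Matomaki-Radziwill theorem for `F` and the angles of the Gaussian integers, and the
geometry of the pairs `v, w` of Gaussian integers with `conj v * w = n + i`.
-/

set_option autoImplicit false

open Pool.Agent.W251.GX Pool.Agent.W78.GA in
/-- Let `F` be a completely multiplicative function on the nonzero Gaussian integers whose values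
are `m`-th roots of unity, `F (-1) = 1`, and `F z ≠ 1` for some `z` with coprime coordinates. Let
`β` be an arbitrary function on the Gaussian integers. Then there is `S` such that for every
`ε > 0` and all large `N` there are at least `N / (log N)^(2 log 2 + ε)` integers `1 ≤ n ≤ N` with
a factorisation `n + i = v w`, `F w ≠ β v`, where the norms of `v`, `w` are at most `S n` and
`n^2 + 1` has no square divisor larger than `S^2`; and for some `κ > 0` and all large `N` at least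
`κ N` pairs `(d, d')` of positive integers `≤ N` are the norms of `v`, `w` in such a factorisation.

With `β v = s / F v` (that is, `s * F v ^ (m - 1)`) this is about the values `F (n + i) ≠ s`. -/
theorem Pool.Agent.Results.MP_f1a94e_nt.MultiplicativeOnLine.result (m : ℕ) (hm : 1 ≤ m)
    (F : GaussianInt → ℂ) (hF : ∀ z : GaussianInt, z ≠ 0 → F z ^ m = 1)
    (hmul : ∀ z w : GaussianInt, z ≠ 0 → w ≠ 0 → F (z * w) = F z * F w) (hneg : F (-1) = 1)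
    (hne : ∃ z : GaussianInt, IsCoprime z.re z.im ∧ F z ≠ 1) (β : GaussianInt → ℂ) :
    ∃ S : ℕ,
      (∀ ε : ℝ, 0 < ε → ∃ N₀ : ℕ, ∀ N : ℕ, N₀ ≤ N →
        (N : ℝ) / Real.log N ^ (2 * Real.log 2 + ε) ≤
          (Set.ncard {n : ℕ | 1 ≤ n ∧ n ≤ N ∧ (∀ k : ℕ, k ^ 2 ∣ n ^ 2 + 1 → k ≤ S) ∧
            ∃ v w : GaussianInt, v * w = ⟨n, 1⟩ ∧ F w ≠ β v ∧
              v.norm ≤ S * n ∧ w.norm ≤ S * n} : ℝ)) ∧
      ∃ κ : ℝ, 0 < κ ∧ ∃ N₀ : ℕ, ∀ N : ℕ, N₀ ≤ N → κ * N ≤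
        (Set.ncard {p : ℕ × ℕ | 1 ≤ p.1 ∧ p.1 ≤ N ∧ 1 ≤ p.2 ∧ p.2 ≤ N ∧
          (∀ k : ℕ, k ^ 2 ∣ p.1 * p.2 → k ≤ S) ∧
          ∃ n : ℕ, 1 ≤ n ∧ ∃ v w : GaussianInt, v * w = ⟨n, 1⟩ ∧ F w ≠ β v ∧
            v.norm = p.1 ∧ w.norm = p.2} : ℝ) := by
  obtain ⟨S, h1, κ, hκ, N₀, h2⟩ := resG (pull_cm hm hF hmul) (pull_neg F hneg) (pull_prim hne)
    (fun v => β (tog (Pool.Agent.W84.FP.cj v)))
  refine ⟨S, fun ε hε => ?_, κ, hκ, N₀, fun N hN => ?_⟩
  · obtain ⟨N₁, h3⟩ := h1 ε hε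
    refine ⟨N₁, fun N hN => (h3 N hN).trans ?_⟩
    have hfin : {n : ℕ | 1 ≤ n ∧ n ≤ N ∧ (∀ k : ℕ, k ^ 2 ∣ n ^ 2 + 1 → k ≤ S) ∧
            ∃ v w : GaussianInt, v * w = ⟨n, 1⟩ ∧ F w ≠ β v ∧
              v.norm ≤ S * n ∧ w.norm ≤ S * n}.Finite :=
      (Set.finite_Iic N).subset fun n hn => hn.2.1
    refine Nat.cast_le.2 (Set.ncard_le_ncard ?_ hfin)
    rintro n ⟨a1, a2, a3, v, w, b1, b2, b3, b4, b5⟩
    refine ⟨a1, a2, a3, tog (Pool.Agent.W84.FP.cj v), tog w, ?_, ?_, ?_, ?_⟩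
    · have := tog_cj_mul b1 b2
      exact_mod_cast this
    · rw [← pull_ne F (ne_zero_of_dt b1)]
      exact b3
    · rw [tog_cj_norm]
      exact_mod_cast b4
    · rw [tog_norm]
      exact_mod_cast b5
  · refine (h2 N hN).trans ?_
    have hfin : {p : ℕ × ℕ | 1 ≤ p.1 ∧ p.1 ≤ N ∧ 1 ≤ p.2 ∧ p.2 ≤ N ∧
          (∀ k : ℕ, k ^ 2 ∣ p.1 * p.2 → k ≤ S) ∧
          ∃ n : ℕ, 1 ≤ n ∧ ∃ v w : GaussianInt, v * w = ⟨n, 1⟩ ∧ F w ≠ β v ∧
            v.norm = p.1 ∧ w.norm = p.2}.Finite :=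
      ((Set.finite_Iic N).prod (Set.finite_Iic N)).subset fun p hp => ⟨hp.2.1, hp.2.2.2.1⟩
    refine Nat.cast_le.2 (Set.ncard_le_ncard ?_ hfin)
    rintro p ⟨a1, a2, a3, a4, a5, v, w, b1, b2, b3, b4, b5⟩
    have hn : ((ip v w).toNat : ℤ) = ip v w := Int.toNat_of_nonneg b2.le
    refine ⟨a1, a2, a3, a4, a5, (ip v w).toNat, by omega, tog (Pool.Agent.W84.FP.cj v), tog w,
      ?_, ?_, ?_, ?_⟩
    · have := tog_cj_mul b1 hn.symm
      exact_mod_cast this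
    · rw [← pull_ne F (ne_zero_of_dt b1)]
      exact b3
    · rw [tog_cj_norm, b4]
    · rw [tog_norm, b5]
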