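import Pool.Agent.W251.EG.Out7

/-!
The values `n^2+1`, and those of eight further polynomials, and completely multiplicative functions
`f` with values `1`, `-1` for which `f(p)`, `p` prime, depends on the residue class of `p`, or of a
prime element of norm `p`, modulo `m`.
-/

set_option autoImplicit false

namespace Pool.Agent.Results.MP_f1a94e_nt.PrimeClassParities

open Finset Filter

open scoped Classical in
/-- the set of the positive integers `X` with `P X` has logarithmic density `0` -/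
def LogNull (P : ℕ → Prop) : Prop :=
  Tendsto (fun Z : ℕ => (∑ X ∈ (Icc 1 Z).filter P, 1 / (X : ℝ)) / Real.log Z) atTop (nhds 0)

/-- the nine pairs `(t, c)` with `t` in `{0, 1}` and `x^2+tx+c` of discriminant `-4`, `-8`, `-3`,
`-7`, `-11`, `-19`, `-43`, `-67`, `-163` -/
def nine : List (ℕ × ℕ) :=
  [(0, 1), (0, 2), (1, 1), (1, 2), (1, 3), (1, 5), (1, 11), (1, 17), (1, 41)]

/-- `f` is completely multiplicative on the positive integers, with values `1`, `-1` -/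
structure SignFunction (f : ℕ → ℤ) : Prop where
  mul : ∀ x y : ℕ, x ≠ 0 → y ≠ 0 → f (x * y) = f x * f y
  pm : ∀ n : ℕ, n ≠ 0 → f n = 1 ∨ f n = -1

/-- `E` is periodic modulo `m` in both variables, and `f p = E x y` whenever `p = x^2+txy+cy^2` is a
prime not dividing `m` -/
structure Determined (t c m : ℕ) (E : ℤ → ℤ → ℤ) (f : ℕ → ℤ) : Prop where
  pos : 1 ≤ m
  per : ∀ x y u v : ℤ, x ≡ u [ZMOD m] → y ≡ v [ZMOD m] → E x y = E u v
  val : ∀ (x y : ℤ) (p : ℕ), p.Prime → ¬ p ∣ m → x ^ 2 + t * x * y + c * y ^ 2 = p → f p = E x y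

/-- `E(z w) = E(z) E(w)` for all `z = x + y ω`, `w = u + v ω` of norms prime to `m`, where
`ω^2 = t ω - c` and the norm of `z` is `x^2+txy+cy^2` -/
def Multiplicative (t c m : ℕ) (E : ℤ → ℤ → ℤ) : Prop := ∀ x y u v : ℤ,
  IsCoprime (x ^ 2 + t * x * y + c * y ^ 2) (m : ℤ) →
  IsCoprime (u ^ 2 + t * u * v + c * v ^ 2) (m : ℤ) →
  E (x * u - c * y * v) (x * v + y * u + t * y * v) = E x y * E u v

open scoped Classical in
/-- the number of the integers `n ≤ X`, `n ≥ 0`, `n ≥ 1 - t`, `n ≡ a mod q`, with `n^2+tn+c`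
squarefree and `f(n^2+tn+c) = e` -/
noncomputable def count (t c q a : ℕ) (f : ℕ → ℤ) (e : ℤ) (X : ℕ) : ℕ :=
  ((range (X + 1)).filter (fun n : ℕ => 1 ≤ n + t ∧ n ≡ a [MOD q] ∧
    Squarefree (n ^ 2 + t * n + c) ∧ f (n ^ 2 + t * n + c) = e)).card

open scoped Classical in
/-- Let `(t, c)` be one of the nine pairs, `F(n) = n^2+tn+c`, let `f` be completely multiplicative
with values `1`, `-1` and determined at the primes by `E`, periodic modulo `m`. Suppose that `E` is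
not multiplicative. Let `a` be a residue class modulo `q ≥ 1`; the integers `n` are `≥ 0` and
`≥ 1 - t`.

1. For `0 ≤ s₁ < s₂ ≤ 1`, `0 ≤ s₃ < s₄ ≤ 1` and an integer `r` let `w_X(n)` be the number of
  factorisations `F(n) = d d'` with `s₁ X < d ≤ s₂ X`, `s₃ X < d' ≤ s₄ X`, `d ≡ r mod q`. For every
  `ε > 0` the set of all `X` with `|∑_{n ≤ X, n ≡ a mod q} f(F(n)) w_X(n)| > ε X` has logarithmic
  density `0`.
2. Suppose that `l^2 ∤ F(a)` for all primes `l` with `l^2 ∣ q`. Then for each sign `e`, every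
  `ε > 0` and almost all `X`, at least `X / (log X)^(2 log 2 + ε)` of the `n ≤ X`, `n ≡ a mod q`,
  have `F(n)` squarefree and `f(F(n)) = e`; and for every `δ > 0` and all large `X` there are at
  least `X^(1 - δ)` such `n`. -/
theorem result (t c : ℕ) (htc : (t, c) ∈ nine) (f : ℕ → ℤ) (hf : SignFunction f) (m : ℕ)
    (E : ℤ → ℤ → ℤ) (hE : Determined t c m E f) (hne : ¬ Multiplicative t c m E) (q : ℕ)
    (hq : 1 ≤ q) (a : ℕ) :
    (∀ (r : ℕ) (s₁ s₂ s₃ s₄ : ℝ), 0 ≤ s₁ → s₁ < s₂ → s₂ ≤ 1 → 0 ≤ s₃ → s₃ < s₄ → s₄ ≤ 1 →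
      ∀ ε : ℝ, 0 < ε → LogNull (fun X : ℕ => ε * X <
        |∑ n ∈ (range (X + 1)).filter (fun n => 1 ≤ n + t ∧ n ≡ a [MOD q]),
          (f (n ^ 2 + t * n + c) : ℝ) *
          (((n ^ 2 + t * n + c).divisors.filter (fun d : ℕ => d ≡ r [MOD q] ∧ s₁ * X < (d : ℝ) ∧
            (d : ℝ) ≤ s₂ * X ∧ s₃ * X < (((n ^ 2 + t * n + c) / d : ℕ) : ℝ) ∧
            (((n ^ 2 + t * n + c) / d : ℕ) : ℝ) ≤ s₄ * X)).card : ℝ)|)) ∧
    ((∀ l : ℕ, l.Prime → l ^ 2 ∣ q → ¬ l ^ 2 ∣ a ^ 2 + t * a + c) → ∀ e : ℤ, e = 1 ∨ e = -1 →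
      (∀ ε : ℝ, 0 < ε →
        LogNull (fun X => (count t c q a f e X : ℝ) < X / Real.log X ^ (2 * Real.log 2 + ε))) ∧
      ∀ δ : ℝ, 0 < δ → ∃ X₀ : ℕ, ∀ X : ℕ, X₀ ≤ X → (X : ℝ) ^ (1 - δ) ≤ count t c q a f e X) := by
  obtain ⟨_, χ, hF⟩ := Pool.Agent.W251.EG.fd9 t c htc
  have hS := Pool.Agent.W251.EG.sps9 t c htc
  have hSg : Pool.Agent.W251.EG.Sg f := ⟨hf.mul, hf.pm⟩
  have hDt : Pool.Agent.W251.EG.Dt t c m E f := ⟨hE.pos, hE.per, hE.val⟩
  have hNm : Pool.Agent.W251.EG.Nm t c m E := by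
    unfold Multiplicative at hne
    push Not at hne
    exact hne
  have hap := Pool.Agent.W251.EG.apdF hF hSg hDt hNm
  refine ⟨fun r s₁ s₂ s₃ s₄ h1 h2 h3 h4 h5 h6 ε hε =>
    Pool.Agent.W251.EG.outF hF hSg hap q hq a r s₁ s₂ s₃ s₄ ε h1 h2 h3 h4 h5 h6 hε,
    fun hqa e he => ⟨fun ε hε =>
      Pool.Agent.W251.EG.outFC hF hS hSg hap q a hq hqa e he ε hε, fun δ hδ =>
      Pool.Agent.W251.EG.all_of (Pool.Agent.W251.EG.cf_mono t c q a f e)
        (fun ε hε => Pool.Agent.W251.EG.outFC hF hS hSg hap q a hq hqa e he ε hε) δ hδ⟩⟩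

end Pool.Agent.Results.MP_f1a94e_nt.PrimeClassParities
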